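import Pool.Agent.MP_ed9623_an.H77.SpecX

/-! Interior third order regularity of the half difference. -/

open MeasureTheory Filter Topology Set
open scoped ContDiff

namespace Pool.Agent.MP_ed9623_an.H77

open H64

namespace RegI

variable {O : Set P} {k : ℕ} {f g φ : P → ℝ}

/-- Membership in `H^k(O)`. -/
def HE (O : Set P) (k : ℕ) (f : P → ℝ) : Prop := M2 f ∧ ∃ C : ℝ, 0 ≤ C ∧ HB O k f C

theorem HE.add (h : HE O k f) (h' : HE O k g) : HE O k fun p => f p + g p :=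
  let ⟨a, _, b, c⟩ := h
  let ⟨a', _, b', c'⟩ := h'
  ⟨a.add a', _, add_nonneg b b', c.add c' a a'⟩

theorem HE.cmul (h : HE O k f) (t : ℝ) : HE O k fun p => t * f p :=
  let ⟨a, _, b, c⟩ := h
  ⟨a.cmul t, _, mul_nonneg (abs_nonneg t) b, c.cmul t⟩

theorem HE.zero (hf : M2 f) : HE O 0 f := ⟨hf, _, nm_nonneg f, HB.zero hf le_rfl⟩

theorem HE.succ {d : Fin 2 → P → ℝ} (h : H1 (fun _ => 0) f d) (hd : ∀ i, HE O k (d i)) :
    HE O (k + 1) f := by
  obtain ⟨-, C, c0, hC⟩ := hd 0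
  obtain ⟨-, C', c0', hC'⟩ := hd 1
  have n0 := nm_nonneg f
  refine ⟨h.m, nm f + C + C', by positivity, HB.succ (g := d) (HB.zero h.m (by linarith))
    (fun i => ((H1O.zero_iff.1 h).2 i).2.mono (subset_univ O)) fun i => ?_⟩
  fin_cases i
  · exact hC.mono subset_rfl le_rfl (by linarith)
  · exact hC'.mono subset_rfl le_rfl (by linarith)

theorem HE.prod (hp : PrkS) {r : ℝ} (h : HE (Q r) 2 f) (h' : HE (Q r) 1 g) :
    HE (Q r) 1 ((Q r).indicator fun p => f p * g p) := by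
  obtain ⟨a, R, b, c⟩ := h
  obtain ⟨a', R', b', c'⟩ := h'
  obtain ⟨C, c0, hC⟩ := hp (-r) r (-r) r 1
  obtain ⟨h1, h2⟩ := hC f g R R' a a' b b' c c'
  exact ⟨h1, _, by positivity, h2⟩

theorem ip_single (z : Fin 2 → P → ℝ) (j : Fin 2) (φ : P → ℝ) :
    ip z (Pi.single j φ) = ∫ x, z j x * φ x := by
  fin_cases j <;> simp [ip]

theorem di_single (d : Fin 2 → Fin 2 → P → ℝ) (j : Fin 2) (φ : P → ℝ) :
    di (fun _ => 0) d (Pi.single j φ) = ∑ i, ∫ x, d j i x * dd (fun _ => 0) i φ x := by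
  have z : ∀ e : P, pd e (0 : P → ℝ) = 0 := pd_zero_fun
  fin_cases j <;> simp [di, dd_zero, z]

/-- The cut transport term. -/
noncomputable def tr (r : ℝ) (a d : Fin 2 → P → ℝ) : P → ℝ := fun p =>
  (Q r).indicator (fun p => a 0 p * d 0 p) p + (Q r).indicator (fun p => a 1 p * d 1 p) p

theorem tl_single (hp : PrdS) {r : ℝ} {a w : Fin 2 → P → ℝ} {da dw : Fin 2 → Fin 2 → P → ℝ}
    (va : VF (fun _ => 0) a da) (vw : VF (fun _ => 0) w dw) (hφ : Test (Q r) φ) (j : Fin 2) :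
    tl (fun _ => 0) a w (Pi.single j φ) = -∫ x, tr r a (dw j) x * φ x := by
  rw [hp.2 _ _ _ _ _ _ Gam.zero va vw.h1 fun l => (test_single hφ j l).top, ip_single]
  refine congrArg _ (int_test_congr (fun _ => hφ.off) (Eventually.of_forall fun p hq => ?_))
  simp only [tr, indicator_of_mem hq, Fin.sum_univ_two]

end RegI

open RegI

theorem rowRegI : OfRegI := by
  intro hb hp hm hk h2 hq r r' R a w z f g da dw dz h0 h1 va vw vz p1 p2 e1
  obtain ⟨ρ, h3, h4⟩ := exists_between h1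
  obtain ⟨C, c0, hC⟩ := h2 r ρ R (h0.trans h3) h4
  have s1 : ∀ j i, HE (Q ρ) 1 fun p => da j i p + dw j i p := fun j i =>
    ⟨(p1.vf.h1 j).md i, C, c0, hC 1 _ _ _ (by simp) p1 j i⟩
  have s2 : ∀ j i, HE (Q ρ) 1 fun p => da j i p - dw j i p := fun j i =>
    ⟨(p2.vf.h1 j).md i, C, c0, hC 1 _ _ _ (by simp) p2 j i⟩
  have ra : ∀ j i, HE (Q ρ) 1 (da j i) := fun j i => by
    convert ((s1 j i).cmul (1 / 2)).add ((s2 j i).cmul (1 / 2)) using 2
    ring
  have rw' : ∀ j i, HE (Q ρ) 1 (dw j i) := fun j i => by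
    convert ((s1 j i).cmul (1 / 2)).add ((s2 j i).cmul (-1 / 2)) using 2
    ring
  have ha : ∀ j, HE (Q ρ) 2 (a j) := fun j => HE.succ (va.h1 j) (ra j)
  have hw : ∀ j, HE (Q ρ) 2 (w j) := fun j => HE.succ (vw.h1 j) (rw' j)
  have hz : ∀ j, HE (Q ρ) 1 (z j) := fun j => HE.succ (vz.h1 j) fun i => HE.zero ((vz.h1 j).md i)
  have t1 : ∀ j, HE (Q ρ) 1 (tr ρ a (dw j)) := fun j =>
    ((ha 0).prod hq (rw' j 0)).add ((ha 1).prod hq (rw' j 1))
  have t2 : ∀ j, HE (Q ρ) 1 (tr ρ w (da j)) := fun j =>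
    ((hw 0).prod hq (ra j 0)).add ((hw 1).prod hq (ra j 1))
  have key : ∀ j, ∃ C : ℝ, 0 ≤ C ∧ HB (Q r') 2 (w j) C ∧ (∀ i, HB (Q r') 2 (dw j i) C) ∧
      ∀ᵐ p, p ∈ Q r' → |a j p| ≤ C := fun j => by
    obtain ⟨mF, K, k0, hK⟩ := ((hz j).add ((t1 j).add (t2 j))).cmul (-1)
    have so : So (fun _ => 0) (-ρ) ρ (w j) (dw j)
        fun p => -1 * (z j p + (tr ρ a (dw j) p + tr ρ w (da j) p)) := by
      refine ⟨(vw.h1 j).mono (subset_univ _), mF, Eventually.of_forall fun p hp => ?_,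
        fun φ hφ => ?_⟩
      · rw [Qp_low le_rfl] at hp
        exact absurd hp.1 hp.2
      · rw [Qp_low le_rfl] at hφ
        have e := e1 _ fun l => (test_single hφ j l).mono (Q_mono h4.le)
        rw [E1, tl_single hp va vw hφ, tl_single hp vw va hφ, ip_single, di_single] at e
        have i1 := (hz j).1.int_mul hφ.m2
        have i2 := (t1 j).1.int_mul hφ.m2
        have i3 := (t2 j).1.int_mul hφ.m2
        have i4 : Integrable fun x => tr ρ a (dw j) x * φ x + tr ρ w (da j) x * φ x := i2.add i3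
        simp only [neg_mul, one_mul, add_mul]
        rw [integral_neg, integral_add i1 i4, integral_add i2 i3]
        linarith
    have n0 := nm_nonneg (w j)
    have n1 := nm_nonneg (dw j 0)
    have n2 := nm_nonneg (dw j 1)
    obtain ⟨C₁, c1, hC₁⟩ := hk _ (-ρ) 1 ρ r' (nm (w j) + nm (dw j 0) + nm (dw j 1) + K) Gam.zero
      (by linarith) h0 h3 (by positivity)
    obtain ⟨b1, b2⟩ := hC₁ _ _ _ so (by linarith) (fun i => by
      fin_cases i
      · change nm (dw j 0) ≤ _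
        linarith
      · change nm (dw j 1) ≤ _
        linarith) (hK.mono (Qp_sub _ _) le_rfl (by linarith))
    rw [Qp_low (by linarith)] at b1 b2
    obtain ⟨m1, M, m0, hM⟩ := ra j 1
    obtain ⟨G, hG⟩ := hb.1 (Q ρ) 0 _ M m1 m0 hM
    obtain ⟨C₂, c2, -, -, hC₂⟩ := hm (-ρ) ρ (-ρ) ρ
    have wd := fun i => ((H1O.zero_iff.1 (va.h1 j)).2 i).2.mono (subset_univ (Q ρ))
    have b3 := hC₂ _ _ _ _ (va.h1 j).m ((va.h1 j).md 0) m1 (hG 0).1 (wd 0) (wd 1) (hG 0).2.2.1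
    have c3 : 0 ≤ C₂ * (nm (a j) + nm (da j 0) + nm (da j 1) + nm (G 0)) :=
      mul_nonneg c2 (add_nonneg (add_nonneg (add_nonneg (nm_nonneg _) (nm_nonneg _))
        (nm_nonneg _)) (nm_nonneg _))
    exact ⟨_, add_nonneg c1 c3, b1.mono subset_rfl (by norm_num) (by linarith),
      fun i => (b2 i).mono subset_rfl le_rfl (by linarith),
      b3.mono fun p hp hq => (hp (Q_mono h3.le hq)).trans (by linarith)⟩
  choose K k0 k1 k2 k3 using key
  have le : ∀ j, K j ≤ K 0 + K 1 := fun j => by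
    fin_cases j
    · exact le_add_of_nonneg_right (k0 1)
    · exact le_add_of_nonneg_left (k0 0)
  exact ⟨K 0 + K 1, add_nonneg (k0 0) (k0 1), fun j => ⟨(k1 j).mono subset_rfl le_rfl (le j),
    fun i => (k2 j i).mono subset_rfl le_rfl (le j),
    (k3 j).mono fun p hp hq => (hp hq).trans (le j)⟩⟩

end Pool.Agent.MP_ed9623_an.H77

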