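import Pool.Agent.MP_ed9623_an.H77.SpecW

/-! Transport of vector fields and of the three forms to a chart. -/

open MeasureTheory Filter Topology Set
open scoped ContDiff

namespace Pool.Agent.MP_ed9623_an.H77

open H64

namespace Trans

variable {x τ : P} {γ : ℝ → ℝ}

theorem int_lc (c : Fin 2 → ℝ) {F : Fin 2 → P → ℝ} (hF : ∀ k, Integrable (F k)) :
    ∫ q, ∑ k, c k * F k q = ∑ k, c k * ∫ q, F k q := by
  rw [integral_finsetSum _ fun k _ => (hF k).const_mul _]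
  simp only [integral_const_mul]

theorem int_lc2 (c : Fin 2 → Fin 2 → ℝ) {F : Fin 2 → Fin 2 → P → ℝ}
    (hF : ∀ k l, Integrable (F k l)) :
    ∫ q, ∑ k, ∑ l, c k l * F k l q = ∑ k, ∑ l, c k l * ∫ q, F k l q := by
  rw [integral_finsetSum _ fun k _ => integrable_finsetSum _ fun l _ => (hF k l).const_mul _]
  exact Finset.sum_congr rfl fun k _ => int_lc (c k) (hF k)

theorem m2_lc (c : Fin 2 → ℝ) {F : Fin 2 → P → ℝ} (hF : ∀ k, M2 (F k)) :
    M2 fun q => ∑ k, c k * F k q := by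
  simp only [Fin.sum_univ_two]
  exact ((hF 0).cmul _).add ((hF 1).cmul _)

theorem nm_lc {c : Fin 2 → ℝ} (hc : ∀ k, |c k| ≤ 1) {F : Fin 2 → P → ℝ} (hF : ∀ k, M2 (F k)) :
    nm (fun q => ∑ k, c k * F k q) ≤ nm (F 0) + nm (F 1) := by
  simp only [Fin.sum_univ_two]
  refine (nm_add_le ((hF 0).cmul _) ((hF 1).cmul _)).trans ?_
  rw [nm_cmul, nm_cmul]
  exact add_le_add (mul_le_of_le_one_left (nm_nonneg _) (hc 0))
    (mul_le_of_le_one_left (nm_nonneg _) (hc 1))

theorem test_lc (c : Fin 2 → ℝ) {O : Set P} {F : Fin 2 → P → ℝ} (hF : ∀ k, Test O (F k)) :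
    Test O fun q => ∑ k, c k * F k q := by
  simp only [Fin.sum_univ_two]
  exact ((hF 0).cmul _).add ((hF 1).cmul _)

theorem pd_lc (c : Fin 2 → ℝ) {F : Fin 2 → P → ℝ} (hF : ∀ k, ContDiff ℝ ∞ (F k)) (e q : P) :
    pd e (fun q => ∑ k, c k * F k q) q = ∑ k, c k * pd e (F k) q := by
  simp only [Fin.sum_univ_two]
  rw [pd_add e ((sm_diff (hF 0) q).const_mul _) ((sm_diff (hF 1) q).const_mul _),
    pd_const_mul e _ (sm_diff (hF 0) q), pd_const_mul e _ (sm_diff (hF 1) q)]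

theorem bv_tv (hτ : τ.1 ^ 2 + τ.2 ^ 2 = 1) (v : Fin 2 → P → ℝ) : bv x τ γ (tv x τ γ v) = v := by
  funext k q
  simp only [bv, tv, Th_Thi hτ, Fin.sum_univ_two]
  fin_cases k
  · simp only [Rm, Fin.zero_eta, Matrix.cons_val_zero, Matrix.cons_val_one]
    linear_combination v 0 q * hτ
  · simp only [Rm, Fin.mk_one, Matrix.cons_val_zero, Matrix.cons_val_one]
    linear_combination v 1 q * hτ

theorem td_eq (d : Fin 2 → Fin 2 → P → ℝ) (j i : Fin 2) :
    td x τ γ d j i = fun p => ∑ k, Rm τ j k * tv x τ γ (d k) i p := by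
  funext p
  simp only [td, tv, Finset.mul_sum, mul_assoc]

theorem td_tr (hτ : τ.1 ^ 2 + τ.2 ^ 2 = 1) (d : Fin 2 → Fin 2 → P → ℝ) (p : P) :
    td x τ γ d 0 0 p + td x τ γ d 1 1 p = d 0 0 (Th x τ γ p) + d 1 1 (Th x τ γ p) := by
  simp only [td, Fin.sum_univ_two, Rm, Matrix.cons_val_zero, Matrix.cons_val_one]
  linear_combination (d 0 0 (Th x τ γ p) + d 1 1 (Th x τ γ p)) * hτ

theorem trc_td (hτ : τ.1 ^ 2 + τ.2 ^ 2 = 1) (da dw : Fin 2 → Fin 2 → P → ℝ) (p : P) :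
    trc (td x τ γ da) (td x τ γ dw) p = trc da dw (Th x τ γ p) := by
  simp only [trc, td, Fin.sum_univ_two, Rm, Matrix.cons_val_zero, Matrix.cons_val_one]
  generalize Th x τ γ p = q
  linear_combination (τ.1 ^ 2 + τ.2 ^ 2 + 1) * (da 0 0 q * dw 0 0 q + da 1 0 q * dw 0 1 q +
    (da 0 1 q * dw 1 0 q + da 1 1 q * dw 1 1 q)) * hτ

/-- The chart as a homeomorphism. -/
def hom (x : P) (hτ : τ.1 ^ 2 + τ.2 ^ 2 = 1) (hγ : Gam γ) : P ≃ₜ P where
  toFun := Th x τ γ
  invFun := Thi x τ γ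
  left_inv := Thi_Th hτ
  right_inv := Th_Thi hτ
  continuous_toFun := (sm_Th hγ x τ).continuous
  continuous_invFun := (sm_Thi hγ x τ).continuous

end Trans

open Pool.Agent.MP_ed9623_an.H77.Trans

theorem rowTrans : OfTrans := by
  intro hTh x τ γ hτ hγ
  obtain ⟨mT, mI, -, hd, ht, hH⟩ := hTh x τ γ hτ hγ
  have iT : ∀ F : P → ℝ, ∫ p, F (Th x τ γ p) = ∫ q, F q := fun F =>
    mT.integral_comp (hom x hτ hγ).measurableEmbedding F
  have iI : ∀ F : P → ℝ, ∫ q, F (Thi x τ γ q) = ∫ p, F p := fun F =>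
    mI.integral_comp (hom x hτ hγ).symm.measurableEmbedding F
  have m2 : ∀ f, M2 f → M2 fun p => f (Th x τ γ p) := fun f hf => hf.comp_measurePreserving mT
  have nT : ∀ f : P → ℝ, nm (fun p => f (Th x τ γ p)) = nm f := fun f =>
    congrArg Real.sqrt (iT fun q => f q ^ 2)
  have a1 : ∀ v : Fin 2 → P → ℝ, (∀ j, M2 (v j)) → ∀ j, M2 (tv x τ γ v j) ∧
      nm (tv x τ γ v j) ≤ nm (v 0) + nm (v 1) := fun v hv j =>
    ⟨m2_lc _ fun k => m2 _ (hv k), by
      rw [← nT (v 0), ← nT (v 1)]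
      exact nm_lc (abs_Rm hτ j) fun k => m2 _ (hv k)⟩
  have tI : ∀ φ, Test univ φ → Test univ fun q => φ (Thi x τ γ q) := fun φ hφ => (ht _ φ hφ).2
  have key : ∀ ζ : Fin 2 → P → ℝ, (∀ j, Test univ (ζ j)) → ∀ d : Fin 2 → Fin 2 → P → ℝ,
      (∀ k l φ, Test univ φ → Integrable fun q => d k l q * φ q) →
      di γ (td x τ γ d) ζ = di (fun _ => 0) d (bv x τ γ ζ) := fun ζ hζ d h => by
    have hi : ∀ k l j i, Integrable fun q => d k l q * dd γ i (ζ j) (Thi x τ γ q) :=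
      fun k l j i => h k l _ (tI _ ((hζ j).dd hγ i))
    have e1 : ∀ j i, ∫ p, td x τ γ d j i p * dd γ i (ζ j) p =
        ∑ k, ∑ l, Rm τ j k * Rm τ i l * ∫ q, d k l q * dd γ i (ζ j) (Thi x τ γ q) := fun j i => by
      rw [← iI, ← int_lc2 _ fun k l => hi k l j i]
      simp only [td, Th_Thi hτ, Finset.sum_mul, mul_assoc]
    have e2 : ∀ k l, ∫ q, d k l q * dd (fun _ => 0) l (bv x τ γ ζ k) q =
        ∑ j, ∑ i, Rm τ j k * Rm τ i l * ∫ q, d k l q * dd γ i (ζ j) (Thi x τ γ q) := fun k l => by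
      rw [← int_lc2 _ fun j i => hi k l j i, dd_zero]
      refine integral_congr_ae (Eventually.of_forall fun q => ?_)
      have := pd_lc (fun j => Rm τ j k) (fun j => (tI _ (hζ j)).1) (ee l) q
      simp only [(hd _ (hζ _).1).2] at this
      change d k l q * pd (ee l) (fun q => ∑ j, Rm τ j k * ζ j (Thi x τ γ q)) q = _
      rw [this]
      simp only [bv, Fin.sum_univ_two]
      ring
    simp only [di, e1, e2, Fin.sum_univ_two]
    ring
  refine ⟨fun v => ⟨a1 v, fun N => ⟨fun hv j => ?_, fun hv j => ?_⟩⟩,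
    fun v d hv => ⟨⟨fun j => ?_, ?_⟩, fun R hR j => ⟨?_, fun i => ?_⟩⟩, trc_td hτ,
    fun O ζ hζ => ⟨fun j => test_lc _ fun k => (ht O _ (hζ k)).2,
      fun j => test_lc _ fun k => (ht O _ (hζ k)).1, bv_tv hτ ζ⟩, fun θ hθ => ⟨?_, ?_⟩,
    fun ζ hζ => ⟨fun z hz => ?_, fun d h => key ζ hζ d fun k l φ hφ => (h k l).int_mul hφ.m2,
      fun a w ha hw => ?_⟩⟩
  · filter_upwards [mT.quasiMeasurePreserving.ae (hv 0), mT.quasiMeasurePreserving.ae (hv 1)]
      with p h0 h1 hp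
    simp only [tv, Fin.sum_univ_two, h0 hp, h1 hp, mul_zero, add_zero]
  · filter_upwards [mI.quasiMeasurePreserving.ae (hv 0), mI.quasiMeasurePreserving.ae (hv 1)]
      with q h0 h1 hq
    rw [← bv_tv (x := x) (γ := γ) hτ v]
    simp only [bv, Fin.sum_univ_two, h0 hq, h1 hq, mul_zero, add_zero]
  · have := ((hH _ _ (hv.h1 0)).cmul (Rm τ j 0)).add ((hH _ _ (hv.h1 1)).cmul (Rm τ j 1)) hγ
    refine this.congr (Eventually.of_forall fun p => ?_) fun i => Eventually.of_forall fun p => ?_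
    · simp only [tv, Fin.sum_univ_two]
    · simp only [td_eq, Fin.sum_univ_two]
  · filter_upwards [mT.quasiMeasurePreserving.ae hv.dv] with p hp
    rw [td_tr hτ, hp]
  · have := (a1 v (fun j => (hv.h1 j).m) j).2
    linarith [(hR 0).1, (hR 1).1, nm_nonneg (v 0)]
  · have b := fun k => a1 (d k) (fun l => (hv.h1 k).md l) i
    have := nm_lc (abs_Rm hτ j) fun k => (b k).1
    rw [td_eq]
    linarith [(b 0).2, (b 1).2, (hR 0).2 0, (hR 0).2 1, (hR 1).2 0, (hR 1).2 1]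
  · funext k q
    fin_cases k
    · change _ = -dd (fun _ => 0) 1 _ q
      rw [dd_zero, (hd θ hθ).2]
      simp only [bv, perp, Fin.sum_univ_two, Rm, Fin.zero_eta, Matrix.cons_val_zero,
        Matrix.cons_val_one]
      ring
    · change _ = dd (fun _ => 0) 0 _ q
      rw [dd_zero, (hd θ hθ).2]
      simp only [bv, perp, Fin.sum_univ_two, Rm, Fin.mk_one, Matrix.cons_val_zero,
        Matrix.cons_val_one]
      ring
  · funext k
    change _ = dd (fun _ => 0) k _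
    rw [dd_zero, (hd θ hθ).2]
    rfl
  · have hi : ∀ k j, Integrable fun q => z k q * ζ j (Thi x τ γ q) := fun k j =>
      (hz k).int_mul (tI _ (hζ j)).m2
    have e1 : ∀ j, ∫ p, tv x τ γ z j p * ζ j p =
        ∑ k, Rm τ j k * ∫ q, z k q * ζ j (Thi x τ γ q) := fun j => by
      rw [← iI, ← int_lc _ fun k => hi k j]
      simp only [tv, Th_Thi hτ, Finset.sum_mul, mul_assoc]
    have e2 : ∀ k, ∫ q, z k q * bv x τ γ ζ k q =
        ∑ j, Rm τ j k * ∫ q, z k q * ζ j (Thi x τ γ q) := fun k => by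
      rw [← int_lc _ fun j => hi k j]
      simp only [bv, Finset.mul_sum, mul_left_comm]
    simp only [ip, e1, e2, Fin.sum_univ_two]
    ring
  · have := key ζ hζ (fun k l q => a l q * w k q) fun k l φ hφ => by
      have := (ha l).int_mul ((hw k).tmul hφ)
      exact this.congr (Eventually.of_forall fun q => by ring)
    refine Eq.trans ?_ this
    refine Finset.sum_congr rfl fun j _ => Finset.sum_congr rfl fun i _ => ?_
    refine integral_congr_ae (Eventually.of_forall fun p => ?_)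
    simp only [tv, td, Fin.sum_univ_two]
    ring

end Pool.Agent.MP_ed9623_an.H77

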